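import Mathlib
import Pool.Agent.R439.QBlock
import Pool.Agent.R439.Phi5

set_option autoImplicit false

namespace Pool.Agent.Results.MP_b125a4_nt.SquareDivides

open Finset Polynomial Pool.Agent.R439

/-- The exponent `e_n(k) = k (n^2 - 2nk - n - 2)/4` (an integer for `n ≡ 1 (mod 4)`). -/
def ex (n k : ℕ) : ℤ := (k : ℤ) * ((n : ℤ) ^ 2 - 2 * n * k - n - 2) / 4

/-- The sum `S_n(q)` of the problem. -/
noncomputable def S (n : ℕ) : K :=
  ∑ k ∈ range ((n - 1) / 2 + 1), qint (4 * (k : ℤ) + 1) *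
    (poch q (q ^ 2) k / poch (q ^ 2) (q ^ 2) k) ^ 3 * q ^ ex n k

section
variable {n M t : ℕ} [NeZero n]

/-- `c_k` -/
noncomputable def ck (n k : ℕ) : K := g1 n 1 k 0 / g2 n 1 k 0

theorem ck_eq (n k : ℕ) : ck n k = poch q (q ^ 2) k / poch (q ^ 2) (q ^ 2) k := by
  rw [ck, g1, g2, gp, gp, mul_zero, add_zero, add_zero, zpow_natCast, zpow_natCast, pow_one,
    mul_one]

/-- the basic term -/
noncomputable def tk (n : ℕ) (u : ℤ) (k : ℕ) : K :=
  (1 - q ^ (4 * (k : ℤ) + 1)) * ck n k ^ 3 * q ^ (-u * k)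

theorem ck_mem (hn : n = 2 * M + 1) {k : ℕ} (hk : k ≤ M) : U n (ck n k) :=
  (g1_U hn (Nat.coprime_one_right n) hk 0).div
    (g2_U hn (Nat.coprime_one_right n) (by omega) 0)

theorem ck_succ (hn : n = 2 * M + 1) {k : ℕ} (hk : k < M) :
    ck n (k + 1) = ck n k * ((1 - q ^ (2 * (k : ℤ) + 1)) / (1 - q ^ (2 * (k : ℤ) + 2))) := by
  rw [ck_eq, ck_eq, poch_succ, poch_succ, mul_div_mul_comm]
  congr 3
  · rw [← pow_mul, ← pow_succ', ← zpow_natCast]; congr 1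
  · rw [← pow_mul, ← pow_add, ← zpow_natCast]; congr 1; push_cast; ring

theorem ck_refl (hn : n = 2 * M + 1) (k : ℕ) (hk : k ≤ M) :
    EQ n 1 (ck n (M - k)) (ck n M * q ^ (k : ℤ) * ck n k) := by
  induction k with
  | zero =>
    have h0 : ck n 0 = 1 := by rw [ck_eq]; simp [poch]
    rw [h0, Nat.sub_zero]
    simp only [Nat.cast_zero, zpow_zero, mul_one]
    exact EQ.refl (ck_mem hn le_rfl).2.1
  | succ k ih =>
    have ih' := ih (by omega)
    obtain ⟨j, hj⟩ : ∃ j, M - k = j + 1 := ⟨M - k - 1, by omega⟩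
    have hj2 : M - (k + 1) = j := by omega
    rw [hj2]
    rw [hj, ck_succ hn (by omega)] at ih'
    rw [ck_succ hn (by omega)]
    have hjz : (j : ℤ) = M - k - 1 := by omega
    have hnz : (n : ℤ) = 2 * M + 1 := by rw [hn]; push_cast; ring
    have nd : ∀ x : ℤ, 0 < x → x < n → ¬ (n : ℤ) ∣ x := fun x h1 h2 h3 =>
      absurd (Int.le_of_dvd h1 h3) (by omega)
    have nd' : ∀ x : ℤ, 0 < x → x < n → ¬ (n : ℤ) ∣ -x := fun x h1 h2 h3 =>
      nd x h1 h2 (by rwa [dvd_neg] at h3)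
    have u1 : U n (1 - q ^ (2 * (j : ℤ) + 1)) := U_one_sub (nd _ (by omega) (by omega))
    have u2 : U n (1 - q ^ (2 * (j : ℤ) + 2)) := U_one_sub (nd _ (by omega) (by omega))
    have u3 : U n (1 - q ^ (2 * (k : ℤ) + 1)) := U_one_sub (nd _ (by omega) (by omega))
    have u4 : U n (1 - q ^ (2 * (k : ℤ) + 2)) := U_one_sub (nd _ (by omega) (by omega))
    have hcj := ck_mem hn (show j ≤ M by omega)
    -- multiply by the inverse ratio
    have h1 : EQ n 1 (ck n j) (ck n M * q ^ (k : ℤ) * ck n k *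
        ((1 - q ^ (2 * (j : ℤ) + 2)) / (1 - q ^ (2 * (j : ℤ) + 1)))) := by
      have := ih'.mul (EQ.refl (k := 1) (u2.div u1).2.1)
      have e : ck n j * ((1 - q ^ (2 * (j : ℤ) + 1)) / (1 - q ^ (2 * (j : ℤ) + 2))) *
          ((1 - q ^ (2 * (j : ℤ) + 2)) / (1 - q ^ (2 * (j : ℤ) + 1))) = ck n j := by
        have := u1.1
        have := u2.1
        field_simp
      rwa [e] at this
    refine h1.trans ?_
    have a1 : EQ n 1 (1 - q ^ (2 * (j : ℤ) + 2)) (-(q ^ (-(2 * (k : ℤ) + 1))) * (1 - q ^ (2 * (k : ℤ) + 1))) := by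
      have := (EQ.refl (n := n) (k := 1) (one_mem _)).sub (q_shift (n := n) (-(2 * (k : ℤ) + 1)) 1)
      have e1 : q ^ (-(2 * (k : ℤ) + 1) + (n : ℤ) * 1) = q ^ (2 * (j : ℤ) + 2) := by
        congr 1; rw [hjz, hnz]; ring
      have e2 : -(q ^ (-(2 * (k : ℤ) + 1))) * (1 - q ^ (2 * (k : ℤ) + 1)) =
          1 - q ^ (-(2 * (k : ℤ) + 1)) := by
        have : q ^ (-(2 * (k : ℤ) + 1)) * q ^ (2 * (k : ℤ) + 1) = 1 := by
          rw [← zpow_add₀ q_ne]; simp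
        linear_combination this
      rw [e1] at this
      rwa [e2]
    have a2 : EQ n 1 (1 - q ^ (2 * (j : ℤ) + 1)) (-(q ^ (-(2 * (k : ℤ) + 2))) * (1 - q ^ (2 * (k : ℤ) + 2))) := by
      have := (EQ.refl (n := n) (k := 1) (one_mem _)).sub (q_shift (n := n) (-(2 * (k : ℤ) + 2)) 1)
      have e1 : q ^ (-(2 * (k : ℤ) + 2) + (n : ℤ) * 1) = q ^ (2 * (j : ℤ) + 1) := by
        congr 1; rw [hjz, hnz]; ring
      have e2 : -(q ^ (-(2 * (k : ℤ) + 2))) * (1 - q ^ (2 * (k : ℤ) + 2)) =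
          1 - q ^ (-(2 * (k : ℤ) + 2)) := by
        have : q ^ (-(2 * (k : ℤ) + 2)) * q ^ (2 * (k : ℤ) + 2) = 1 := by
          rw [← zpow_add₀ q_ne]; simp
        linear_combination this
      rw [e1] at this
      rwa [e2]
    have a3 := a1.div one_pos a2 u1
    have e3 : -(q ^ (-(2 * (k : ℤ) + 1))) * (1 - q ^ (2 * (k : ℤ) + 1)) /
        (-(q ^ (-(2 * (k : ℤ) + 2))) * (1 - q ^ (2 * (k : ℤ) + 2))) =
        q * ((1 - q ^ (2 * (k : ℤ) + 1)) / (1 - q ^ (2 * (k : ℤ) + 2))) := by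
      have h4 := u4.1
      have e : q ^ (-(2 * (k : ℤ) + 1)) = q ^ (-(2 * (k : ℤ) + 2)) * q := by
        have e0 : -(2 * (k : ℤ) + 1) = -(2 * (k : ℤ) + 2) + 1 := by ring
        rw [e0, zpow_add_one₀ q_ne]
      have hne : q ^ (-(2 * (k : ℤ) + 2)) ≠ 0 := zpow_ne_zero _ q_ne
      rw [e]
      field_simp
    rw [e3] at a3
    have a4 := (EQ.refl (n := n) (k := 1) (mul_mem (mul_mem (ck_mem hn le_rfl).2.1
      (zpow_mem (k : ℤ))) (ck_mem hn (show k ≤ M by omega)).2.1)).mul a3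
    have e4 : ck n M * q ^ (k : ℤ) * ck n k *
        (q * ((1 - q ^ (2 * (k : ℤ) + 1)) / (1 - q ^ (2 * (k : ℤ) + 2)))) =
        ck n M * q ^ (((k + 1 : ℕ) : ℤ)) * (ck n k * ((1 - q ^ (2 * (k : ℤ) + 1)) /
          (1 - q ^ (2 * (k : ℤ) + 2)))) := by
      have e5 : q ^ (((k + 1 : ℕ) : ℤ)) = q ^ (k : ℤ) * q := by
        push_cast; exact zpow_add_one₀ q_ne _
      rw [e5]; ring
    rwa [e4] at a4

theorem tk_refl (hn : n = 2 * M + 1) (hM : M = 2 * t) (k : ℕ) (hk : k ≤ M) :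
    EQ n 1 (tk n (M + 1) (M - k)) (-(tk n (M + 1) k)) := by
  have hnz : (n : ℤ) = 2 * M + 1 := by rw [hn]; push_cast; ring
  have hcast : ((M - k : ℕ) : ℤ) = M - k := by omega
  have c1 := ck_refl hn k hk
  have c2 : EQ n 1 (ck n M) (q ^ ((M : ℤ) ^ 2)) := by
    have := (g12_eq hn 1 0 0).div one_pos (EQ.refl (g2_U hn (Nat.coprime_one_right n)
      (show M < n by omega) 0).2.1) (g2_U hn (Nat.coprime_one_right n) (show M < n by omega) 0)
    rw [mul_div_assoc, div_self (g2_U hn (Nat.coprime_one_right n) (show M < n by omega) 0).1,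
      mul_one, one_mul, hM, pow_mul] at this
    simp only [even_two, Even.neg_pow, one_pow, one_mul] at this
    rw [← hM] at this
    rw [ck]
    have e : q ^ (M ^ 2) = q ^ ((M : ℤ) ^ 2) := by rw [← zpow_natCast]; push_cast; rfl
    rwa [e] at this
  have c3 : EQ n 1 (ck n (M - k)) (q ^ ((M : ℤ) ^ 2) * q ^ (k : ℤ) * ck n k) :=
    c1.trans ((c2.mul (EQ.refl (zpow_mem _))).mul (EQ.refl (ck_mem hn hk).2.1))
  have c4 : EQ n 1 (1 - q ^ (4 * ((M - k : ℕ) : ℤ) + 1)) (1 - q ^ (-(4 * (k : ℤ) + 1))) := by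
    have := q_shift (n := n) (-(4 * (k : ℤ) + 1)) 2
    have e : q ^ (-(4 * (k : ℤ) + 1) + (n : ℤ) * 2) = q ^ (4 * ((M - k : ℕ) : ℤ) + 1) := by
      congr 1; rw [hcast, hnz]; ring
    rw [e] at this
    exact (EQ.refl (one_mem _)).sub this
  have h := (c4.mul (c3.pow 3)).mul (EQ.refl (n := n) (k := 1) (zpow_mem (-(M + 1 : ℤ) * ((M - k : ℕ) : ℤ))))
  unfold tk
  refine h.trans ?_
  have e1 : (1 - q ^ (-(4 * (k : ℤ) + 1))) = -(q ^ (-(4 * (k : ℤ) + 1))) * (1 - q ^ (4 * (k : ℤ) + 1)) := by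
    have : q ^ (-(4 * (k : ℤ) + 1)) * q ^ (4 * (k : ℤ) + 1) = 1 := by
      rw [← zpow_add₀ q_ne]; simp
    linear_combination -this
  have e2 : (1 - q ^ (-(4 * (k : ℤ) + 1))) * (q ^ ((M : ℤ) ^ 2) * q ^ (k : ℤ) * ck n k) ^ 3 *
      q ^ (-(M + 1 : ℤ) * ((M - k : ℕ) : ℤ)) =
      q ^ ((n : ℤ) * (k + M - 1)) * (-((1 - q ^ (4 * (k : ℤ) + 1)) * ck n k ^ 3 * q ^ (-(M + 1 : ℤ) * k))) := by
    have e3 : q ^ ((n : ℤ) * (k + M - 1)) * q ^ (-(M + 1 : ℤ) * k) =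
        q ^ (-(4 * (k : ℤ) + 1)) * (q ^ ((M : ℤ) ^ 2) * q ^ (k : ℤ)) ^ 3 *
          q ^ (-(M + 1 : ℤ) * ((M - k : ℕ) : ℤ)) := by
      rw [← zpow_add₀ q_ne ((M : ℤ) ^ 2), ← zpow_natCast (q ^ (_ : ℤ)) 3, ← zpow_mul,
        ← zpow_add₀ q_ne, ← zpow_add₀ q_ne, ← zpow_add₀ q_ne]
      congr 1; rw [hcast, hnz]; push_cast; ring
    rw [e1]
    linear_combination ((1 - q ^ (4 * (k : ℤ) + 1)) * ck n k ^ 3) * e3
  rw [e2]
  have h5 := (Q_eq (n := n) (k + M - 1)).mul (EQ.refl (n := n) (k := 1)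
    (neg_mem (mul_mem (mul_mem (sub_mem (one_mem _) (zpow_mem (4 * (k : ℤ) + 1)))
      (pow_mem (ck_mem hn hk).2.1 3)) (zpow_mem (-(M + 1 : ℤ) * k)))))
  rwa [one_mul] at h5

theorem tk_mem (hn : n = 2 * M + 1) (u : ℤ) {k : ℕ} (hk : k ≤ M) : tk n u k ∈ O n :=
  mul_mem (mul_mem (sub_mem (one_mem _) (zpow_mem _)) (pow_mem (ck_mem hn hk).2.1 3)) (zpow_mem _)

/-- the quadratic moment vanishes -/
theorem moment (hn : n = 2 * M + 1) (hM : M = 2 * t) :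
    I n 1 (∑ k ∈ range (M + 1), tk n (M + 1) k * ((k * (M - k) : ℤ) : K)) := by
  set A := ∑ k ∈ range (M + 1), tk n (M + 1) k * ((k * (M - k) : ℤ) : K) with hA
  have h1 : A = ∑ k ∈ range (M + 1), tk n (M + 1) (M - k) * ((k * (M - k) : ℤ) : K) := by
    rw [hA, ← sum_range_reflect]
    refine sum_congr rfl fun k hk => ?_
    have hk' := mem_range.1 hk
    have e : M + 1 - 1 - k = M - k := by omega
    rw [e]
    congr 2
    have : ((M - k : ℕ) : ℤ) = M - k := by omega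
    rw [this]; ring
  have h2 : EQ n 1 A (-A) := by
    conv_lhs => rw [h1]
    rw [hA, ← sum_neg_distrib]
    refine EQ.sum fun k hk => ?_
    have hk' := mem_range.1 hk
    rw [← neg_mul]
    exact (tk_refl hn hM k (by omega)).mul (EQ.refl (intCast_mem _ _))
  have h3 : I n 1 ((2 : K) * A) := by
    have := h2.2.2
    have e : A - -A = 2 * A := by ring
    rwa [e] at this
  have hU : U n (2 : K) := by
    have := U_rat (n := n) (c := 2) (by norm_num)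
    exact_mod_cast this
  exact I.cancel hU.1 hU.2.2 h3

/-- `(q^(1+u);q^2)_k`, shifted -/
noncomputable abbrev Xk (n M k : ℕ) (s : ℤ) : K := gp n ((M : ℤ) + 2) (q ^ 2) k s

theorem Xk_U (hn : n = 2 * M + 1) (hM : M = 2 * t) {k : ℕ} (hk : k ≤ M) (s : ℤ) :
    U n (Xk n M k s) := by
  unfold Xk gp poch
  refine U.prod fun l hl => ?_
  have hl' := mem_range.1 hl
  have e : q ^ ((M : ℤ) + 2 + (n : ℤ) * s) * (q ^ 2) ^ l = q ^ ((M : ℤ) + 2 + 2 * l + n * s) := by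
    rw [← pow_mul, ← zpow_natCast q (2 * l), ← zpow_add₀ q_ne]; congr 1; push_cast; ring
  rw [e]
  apply U_one_sub
  intro h
  have hnz : (n : ℤ) = 2 * M + 1 := by rw [hn]; push_cast; ring
  have h1 : (n : ℤ) ∣ (M : ℤ) + 2 + 2 * l := by
    have := dvd_sub h (dvd_mul_right (n : ℤ) s)
    simpa using this
  obtain ⟨c, hc⟩ := h1
  rw [hnz] at hc
  have hMz : (M : ℤ) = 2 * t := by exact_mod_cast hM
  have hl2 : (l : ℤ) < M := by omega
  have hl0 : (0 : ℤ) ≤ l := by positivity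
  have ht0 : (0 : ℤ) < t := by omega
  -- `M + 2 + 2 l` lies strictly between `0` and `2 n` and differs from `n`
  have c1 : 0 < c := by
    by_contra hneg
    push Not at hneg
    nlinarith
  have c2 : c < 2 := by
    by_contra hge
    push Not at hge
    nlinarith
  have c3 : c = 1 := by omega
  rw [c3, mul_one, hMz] at hc
  omega

/-- the terms of the exactly summable sums -/
noncomputable def ee (n M : ℕ) (d : ℤ) (k : ℕ) : K :=
  (1 - q ^ (4 * (k : ℤ) + 1)) * (g1 n 1 k 0 * g1 n 1 k (-1) * g1 n 1 k 1 *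
    ((g2 n 1 k 0)⁻¹ * (g2 n 1 k 1)⁻¹ * (g2 n 1 k (-1))⁻¹)) *
    (Xk n M k d / Xk n M k (-1 - d)) * q ^ ((-(M + 1 : ℤ) - n * d) * k)

set_option maxHeartbeats 2000000 in
theorem ee_sum (hn : n = 2 * M + 1) (hM : M = 2 * t) (ht : 0 < t) (d : ℤ) (hd : d = 0 ∨ d = -1) :
    I n 2 (∑ k ∈ range (M + 1), ee n M d k) := by
  have hb0 : (q ^ 2 : K) ≠ 0 := pow_ne_zero _ q_ne
  have hb : ∀ i : ℕ, 0 < i → (q ^ 2 : K) ^ i ≠ 1 := qB_ne one_pos
  have hnz : (n : ℤ) = 2 * M + 1 := by rw [hn]; push_cast; ring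
  have hMz : (M : ℤ) = 2 * t := by exact_mod_cast hM
  set cc : K := q ^ ((1 : ℤ) + n) with hcc
  set dd : K := q ^ ((M : ℤ) + 2 + n * d) with hdd
  have hc : cc ≠ 0 := zpow_ne_zero _ q_ne
  have hd0 : dd ≠ 0 := zpow_ne_zero _ q_ne
  have ha1 : ∀ i : ℕ, q * (q ^ 2) ^ i ≠ 1 := by
    intro i
    rw [← pow_mul, ← pow_succ']
    exact q_pow_ne_one (by omega)
  have hac0 : q * q ^ 2 / cc = q ^ ((2 : ℤ) - n) := by
    rw [hcc, ← pow_succ', ← zpow_natCast q (2 + 1), ← zpow_sub₀ q_ne]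
    congr 1; push_cast; ring
  have hac : ∀ i : ℕ, q * q ^ 2 / cc * (q ^ 2) ^ i ≠ 1 := by
    intro i
    rw [hac0, ← pow_mul, ← zpow_natCast q (2 * i), ← zpow_add₀ q_ne]
    apply q_zpow_ne_one
    push_cast
    omega
  have had0 : q * q ^ 2 / dd = q ^ ((M : ℤ) + 2 + n * (-1 - d)) := by
    rw [hdd, ← pow_succ', ← zpow_natCast q (2 + 1), ← zpow_sub₀ q_ne]
    congr 1; rw [hnz]; push_cast; ring
  have had : ∀ i : ℕ, q * q ^ 2 / dd * (q ^ 2) ^ i ≠ 1 := by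
    intro i
    rw [had0, ← pow_mul, ← zpow_natCast q (2 * i), ← zpow_add₀ q_ne]
    apply q_zpow_ne_one
    push_cast
    rcases hd with hd | hd
    · subst hd; omega
    · subst hd; omega
  have hsum := phi65 hb0 hb hc hd0 ha1 hac had M (M + 1) (Nat.lt_succ_self M)
  have hterm : ∀ k ∈ range (M + 1), ee n M d k = T6 (q ^ 2) q cc dd M k := by
    intro k _
    rw [ee, T6, hh, tc]
    have t1 : g1 n 1 k 0 = poch q (q ^ 2) k := by
      rw [g1, gp, mul_zero, add_zero, zpow_natCast, pow_one, mul_one]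
    have t2 : g1 n 1 k (-1) = poch ((q ^ 2) ^ (-(M : ℤ))) (q ^ 2) k := by
      rw [g1, gp]
      congr 1
      rw [← zpow_natCast q 2, ← zpow_mul]; congr 1; rw [hnz]; push_cast; ring
    have t3 : g1 n 1 k 1 = poch cc (q ^ 2) k := by
      rw [g1, gp, hcc]; push_cast; rw [mul_one]
    have t4 : g2 n 1 k 0 = poch (q ^ 2) (q ^ 2) k := by
      rw [g2, gp, mul_zero, add_zero, zpow_natCast, mul_one]
    have t5 : g2 n 1 k 1 = poch (q * (q ^ 2) ^ (M + 1)) (q ^ 2) k := by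
      rw [g2, gp]
      congr 1
      rw [← pow_mul, ← pow_succ', ← zpow_natCast q (2 * (M + 1) + 1)]
      congr 1; rw [hnz]; push_cast; ring
    have t6 : g2 n 1 k (-1) = poch (q * q ^ 2 / cc) (q ^ 2) k := by
      rw [hac0, g2, gp]; congr 2; push_cast; ring
    have t7 : Xk n M k d = poch dd (q ^ 2) k := by rw [Xk, gp, hdd]
    have t8 : Xk n M k (-1 - d) = poch (q * q ^ 2 / dd) (q ^ 2) k := by rw [Xk, gp, had0]
    rw [t1, t2, t3, t4, t5, t6, t7, t8]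
    have e1 : q ^ (4 * (k : ℤ) + 1) = q * ((q ^ 2) ^ k) ^ 2 := by
      rw [← pow_mul, ← pow_mul, ← pow_succ', ← zpow_natCast q]
      congr 1; push_cast; ring
    have e2 : q ^ ((-(M + 1 : ℤ) - n * d) * k) = (q * (q ^ 2) ^ (M + 1) / (cc * dd)) ^ k := by
      rw [zpow_mul, zpow_natCast]
      congr 1
      rw [hcc, hdd, ← zpow_add₀ q_ne, ← pow_mul, ← pow_succ', ← zpow_natCast q (2 * (M + 1) + 1),
        ← zpow_sub₀ q_ne]
      congr 1; rw [hnz]; push_cast; ring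
    rw [e1, e2]
    have h1 : poch (q * q ^ 2 / cc) (q ^ 2) k ≠ 0 := poch_ne fun i _ => hac i
    have h2 : poch (q * q ^ 2 / dd) (q ^ 2) k ≠ 0 := poch_ne fun i _ => had i
    field_simp
  rw [sum_congr rfl hterm, hsum]
  have p1 : I n 1 (poch q (q ^ 2) (M + 1)) := by
    have := g1_I hn 1 (Nat.lt_succ_self M) 0
    rwa [g1, gp, mul_zero, add_zero, zpow_natCast, pow_one, mul_one] at this
  have p2 : I n 1 (poch (q * q ^ 2 / (cc * dd)) (q ^ 2) M) := by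
    have e : q * q ^ 2 / (cc * dd) = q ^ (-(M : ℤ) + n * (-1 - d)) := by
      rw [hcc, hdd, ← zpow_add₀ q_ne, ← pow_succ', ← zpow_natCast q (2 + 1), ← zpow_sub₀ q_ne]
      congr 1; push_cast; ring
    have e3 : ∀ l : ℕ, q * q ^ 2 / (cc * dd) * (q ^ 2) ^ l = q ^ (-(M : ℤ) + n * (-1 - d) + 2 * l) := by
      intro l
      rw [e, ← pow_mul, ← zpow_natCast q (2 * l), ← zpow_add₀ q_ne]; push_cast; rfl
    rw [poch, ← mul_prod_erase (range M) _ (mem_range.2 (show t < M by omega))]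
    refine I.mulR ?_ (prod_mem fun l _ => ?_)
    · rw [e3]
      have e4 : q ^ (-(M : ℤ) + n * (-1 - d) + 2 * t) = q ^ ((n : ℤ) * (-1 - d)) := by
        congr 1; rw [hMz]; ring
      rw [e4]
      exact (Q_eq (n := n) (-1 - d)).symm.2.2
    · rw [e3]; exact sub_mem (one_mem _) (zpow_mem _)
  have p3 : U n (poch (q * q ^ 2 / cc) (q ^ 2) M) := by
    have := g2_U hn (Nat.coprime_one_right n) (show M < n by omega) (-1)
    rw [g2, gp] at this
    rw [hac0]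
    have e : q ^ (((2 * 1 : ℕ) : ℤ) + (n : ℤ) * (-1)) = q ^ ((2 : ℤ) - n) := by
      congr 1; push_cast; ring
    rwa [e] at this
  have p4 : U n (poch (q * q ^ 2 / dd) (q ^ 2) M) := by
    have := Xk_U hn hM le_rfl (-1 - d)
    rw [Xk, gp] at this
    rwa [had0]
  rw [div_eq_mul_inv]
  exact (p1.mul p2).mulR (p3.mul p4).inv.2.1

theorem key (hn : n = 2 * M + 1) (hM : M = 2 * t) {k : ℕ} (hk : k ≤ M) :
    EQ n 2 (2 * (tk n (M + 1) k * q ^ ((n : ℤ) * ((k : ℤ) * (M + 1 - k) / 2))))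
      (ee n M 0 k + ee n M (-1) k + w n * (-(tk n (M + 1) k * ((k * (M - k) : ℤ) : K)))) := by
  have hcp := Nat.coprime_one_right n
  have hg1 : EQ n 2 (g1 n 1 k 0 * g1 n 1 k (-1) * g1 n 1 k 1) (g1 n 1 k 0 ^ 3) := by
    have := (gp_aff (n := n) (B := q ^ (2 * 1)) (pow_mem' _) ((1 : ℕ) : ℤ) k).mul_three 0 (-1) 1 0 0 0 (by ring)
    have e : g1 n 1 k 0 ^ 3 = g1 n 1 k 0 * g1 n 1 k 0 * g1 n 1 k 0 := by ring
    rw [e]; exact this
  have hg2 : EQ n 2 ((g2 n 1 k 0)⁻¹ * (g2 n 1 k 1)⁻¹ * (g2 n 1 k (-1))⁻¹) ((g2 n 1 k 0)⁻¹ ^ 3) := by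
    have h := ((gp_aff (n := n) (B := q ^ (2 * 1)) (pow_mem' _) ((2 * 1 : ℕ) : ℤ) k).inv
      (fun s => g2_U hn hcp (show k < n by omega) s)).mul_three 0 1 (-1) 0 0 0 (by ring)
    have e : (g2 n 1 k 0)⁻¹ ^ 3 = (g2 n 1 k 0)⁻¹ * (g2 n 1 k 0)⁻¹ * (g2 n 1 k 0)⁻¹ := by ring
    rw [e]; exact h
  set Xr : K := Xk n M k 0 / Xk n M k (-1) with hXr
  have u0 := Xk_U hn hM hk 0
  have u1 := Xk_U hn hM hk (-1)
  have uX : U n Xr := u0.div u1
  have hX1 : EQ n 1 Xr 1 := by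
    have := ((gp_aff (n := n) (B := q ^ 2) (pow_mem' _) ((M : ℤ) + 2) k).eq_one 0 (-1)).div one_pos
      (EQ.refl u1.2.1) u1
    rwa [div_self u1.1] at this
  -- x + 1/x = 2
  have hX2 : EQ n 2 (Xr + Xr⁻¹) 2 := by
    refine ⟨add_mem uX.2.1 uX.2.2, by exact_mod_cast natCast_mem (O n) 2, ?_⟩
    have : Xr + Xr⁻¹ - 2 = (Xr - 1) * (Xr - 1) * Xr⁻¹ := by
      have := uX.1
      field_simp
      ring
    rw [this]
    exact (hX1.2.2.mul hX1.2.2).mulR uX.2.2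
  have hQk : EQ n 2 (q ^ ((n : ℤ) * k)) (1 - (k : ℤ) * w n) :=
    ⟨zpow_mem _, sub_mem (one_mem _) (mul_mem (intCast_mem _ _) w_mem), qn_zpow _⟩
  have hQ2 : EQ n 2 (q ^ ((n : ℤ) * ((k : ℤ) * (M + 1 - k) / 2)))
      (1 - (((k : ℤ) * (M + 1 - k) / 2 : ℤ) : K) * w n) :=
    ⟨zpow_mem _, sub_mem (one_mem _) (mul_mem (intCast_mem _ _) w_mem), qn_zpow _⟩
  have hdiv : ((k : ℤ) * (M + 1 - k) / 2) * 2 = (k : ℤ) * (M + 1 - k) := by
    clear hQ2
    apply Int.ediv_mul_cancel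
    have hMz : (M : ℤ) = 2 * t := by exact_mod_cast hM
    rcases Int.even_or_odd (k : ℤ) with h | h
    · exact (h.mul_right _).two_dvd
    · have : Even ((M : ℤ) + 1 - k) := by
        obtain ⟨c, hc⟩ := h
        exact ⟨t - c, by rw [hc, hMz]; ring⟩
      exact (this.mul_left _).two_dvd
  -- the left side
  have hL : EQ n 2 (2 * (tk n (M + 1) k * q ^ ((n : ℤ) * ((k : ℤ) * (M + 1 - k) / 2))))
      (tk n (M + 1) k * (2 - (((k : ℤ) * (M + 1 - k) : ℤ) : K) * w n)) := by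
    have h := (EQ.refl (n := n) (k := 2) (show (2 : K) ∈ O n by exact_mod_cast natCast_mem (O n) 2)).mul
      ((EQ.refl (tk_mem hn (M + 1) hk)).mul hQ2)
    have e : (2 : K) * (tk n (M + 1) k * (1 - (((k : ℤ) * (M + 1 - k) / 2 : ℤ) : K) * w n)) =
        tk n (M + 1) k * (2 - (((k : ℤ) * (M + 1 - k) : ℤ) : K) * w n) := by
      have e0 : (((k : ℤ) * (M + 1 - k) : ℤ) : K) = (((k : ℤ) * (M + 1 - k) / 2 : ℤ) : K) * 2 := by
        exact_mod_cast congrArg (fun z : ℤ => (z : K)) hdiv.symm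
      rw [e0]; ring
    rwa [e] at h
  -- the right side
  have hE0 : EQ n 2 (ee n M 0 k) (tk n (M + 1) k * Xr) := by
    have h := ((EQ.refl (n := n) (k := 2) (sub_mem (one_mem _) (zpow_mem (4 * (k : ℤ) + 1)))).mul
      (hg1.mul hg2)).mul (EQ.refl (mul_mem uX.2.1 (zpow_mem (n := n) (-(M + 1 : ℤ) * k))))
    have e1 : (1 - q ^ (4 * (k : ℤ) + 1)) * (g1 n 1 k 0 * g1 n 1 k (-1) * g1 n 1 k 1 *
        ((g2 n 1 k 0)⁻¹ * (g2 n 1 k 1)⁻¹ * (g2 n 1 k (-1))⁻¹)) *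
        (Xr * q ^ (-(M + 1 : ℤ) * k)) = ee n M 0 k := by
      rw [ee, hXr]
      have : (-1 - 0 : ℤ) = -1 := by ring
      have h2 : ((-(M + 1 : ℤ) - n * 0) * k) = -(M + 1 : ℤ) * k := by ring
      rw [this, h2]; ring
    have e2 : (1 - q ^ (4 * (k : ℤ) + 1)) * (g1 n 1 k 0 ^ 3 * (g2 n 1 k 0)⁻¹ ^ 3) *
        (Xr * q ^ (-(M + 1 : ℤ) * k)) = tk n (M + 1) k * Xr := by
      rw [tk, ck, div_eq_mul_inv, mul_pow]; ring
    rwa [e1, e2] at h
  have hE1 : EQ n 2 (ee n M (-1) k) (tk n (M + 1) k * (Xr⁻¹ * q ^ ((n : ℤ) * k))) := by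
    have h := ((EQ.refl (n := n) (k := 2) (sub_mem (one_mem _) (zpow_mem (4 * (k : ℤ) + 1)))).mul
      (hg1.mul hg2)).mul (EQ.refl (mul_mem uX.2.2 (zpow_mem (n := n) ((-(M + 1 : ℤ) - n * (-1)) * k))))
    have e1 : (1 - q ^ (4 * (k : ℤ) + 1)) * (g1 n 1 k 0 * g1 n 1 k (-1) * g1 n 1 k 1 *
        ((g2 n 1 k 0)⁻¹ * (g2 n 1 k 1)⁻¹ * (g2 n 1 k (-1))⁻¹)) *
        (Xr⁻¹ * q ^ ((-(M + 1 : ℤ) - n * (-1)) * k)) = ee n M (-1) k := by
      rw [ee, hXr, inv_div]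
      have : (-1 - -1 : ℤ) = 0 := by ring
      rw [this]; ring
    have e2 : (1 - q ^ (4 * (k : ℤ) + 1)) * (g1 n 1 k 0 ^ 3 * (g2 n 1 k 0)⁻¹ ^ 3) *
        (Xr⁻¹ * q ^ ((-(M + 1 : ℤ) - n * (-1)) * k)) =
        tk n (M + 1) k * (Xr⁻¹ * q ^ ((n : ℤ) * k)) := by
      have e3 : q ^ ((-(M + 1 : ℤ) - n * (-1)) * k) = q ^ (-(M + 1 : ℤ) * k) * q ^ ((n : ℤ) * k) := by
        rw [← zpow_add₀ q_ne]; congr 1; ring
      rw [tk, ck, div_eq_mul_inv, mul_pow, e3]; ring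
    rwa [e1, e2] at h
  have hE2 : EQ n 2 (Xr⁻¹ * q ^ ((n : ℤ) * k)) (Xr⁻¹ - (k : ℤ) * w n) := by
    have h1 := (EQ.refl (n := n) (k := 2) uX.2.2).mul hQk
    refine h1.trans ?_
    have h3 : EQ n 2 (w n * ((k : ℤ) * Xr⁻¹)) (w n * ((k : ℤ) * 1)) := by
      have : EQ n 1 Xr⁻¹ 1 := by
        have := hX1.inv one_pos uX
        rwa [inv_one] at this
      exact ((EQ.refl (intCast_mem _ _)).mul this).w_mul
    have h4 := (EQ.refl (n := n) (k := 2) uX.2.2).sub h3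
    have e1 : Xr⁻¹ - w n * ((k : ℤ) * Xr⁻¹) = Xr⁻¹ * (1 - (k : ℤ) * w n) := by ring
    have e2 : Xr⁻¹ - w n * ((k : ℤ) * 1) = Xr⁻¹ - (k : ℤ) * w n := by ring
    rwa [e1, e2] at h4
  have hsumE : EQ n 2 (ee n M 0 k + ee n M (-1) k) (tk n (M + 1) k * (2 - (k : ℤ) * w n)) := by
    have hT := tk_mem hn (M + 1) hk
    have h1 := hE0.add (hE1.trans ((EQ.refl hT).mul hE2))
    have e1 : tk n (M + 1) k * Xr + tk n (M + 1) k * (Xr⁻¹ - (k : ℤ) * w n) =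
        tk n (M + 1) k * (Xr + Xr⁻¹ - (k : ℤ) * w n) := by ring
    rw [e1] at h1
    refine h1.trans ((EQ.refl hT).mul (hX2.sub (EQ.refl ?_)))
    exact mul_mem (intCast_mem _ _) w_mem
  have hT := tk_mem hn (M + 1) hk
  have hfin := hsumE.add (EQ.refl (n := n) (k := 2)
    (show w n * (-(tk n (M + 1) k * ((k * (M - k) : ℤ) : K))) ∈ O n from
      mul_mem w_mem (neg_mem (mul_mem hT (intCast_mem _ _)))))
  refine hL.trans ?_
  have e : tk n (M + 1) k * (2 - (k : ℤ) * w n) + w n * (-(tk n (M + 1) k * ((k * (M - k) : ℤ) : K))) =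
      tk n (M + 1) k * (2 - (((k : ℤ) * (M + 1 - k) : ℤ) : K) * w n) := by
    push_cast; ring
  rw [e] at hfin
  exact hfin.symm

theorem main (hn : n = 2 * M + 1) (hM : M = 2 * t) (ht : 0 < t) : I n 2 (S n) := by
  have h1q : U n (1 - q) := by
    have := U_one_sub (n := n) (e := 1) (fun h => by
      have := Int.le_of_dvd one_pos h
      omega)
    rwa [zpow_one] at this
  have e1 : (n - 1) / 2 = M := by omega
  have hS : S n = (1 - q)⁻¹ * ∑ k ∈ range (M + 1),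
      (tk n (M + 1) k * q ^ ((n : ℤ) * ((k : ℤ) * (M + 1 - k) / 2))) := by
    rw [S, e1, mul_sum]
    refine sum_congr rfl fun k hk => ?_
    have hexp : ex n k = -(M + 1 : ℤ) * k + (n : ℤ) * ((k : ℤ) * (M + 1 - k) / 2) := by
      have hdiv : ((k : ℤ) * (M + 1 - k) / 2) * 2 = (k : ℤ) * (M + 1 - k) := by
        apply Int.ediv_mul_cancel
        have hMz : (M : ℤ) = 2 * t := by exact_mod_cast hM
        rcases Int.even_or_odd (k : ℤ) with h | h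
        · exact (h.mul_right _).two_dvd
        · have : Even ((M : ℤ) + 1 - k) := by
            obtain ⟨c, hc⟩ := h
            exact ⟨t - c, by rw [hc, hMz]; ring⟩
          exact (this.mul_left _).two_dvd
      have hnz : (n : ℤ) = 2 * M + 1 := by rw [hn]; push_cast; ring
      rw [ex]
      have e : (k : ℤ) * ((n : ℤ) ^ 2 - 2 * n * k - n - 2) =
          4 * (-(M + 1 : ℤ) * k + (n : ℤ) * ((k : ℤ) * (M + 1 - k) / 2)) := by
        generalize (k : ℤ) * (M + 1 - k) / 2 = z at hdiv ⊢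
        rw [hnz]
        linear_combination (-(2 * (2 * (M : ℤ) + 1))) * hdiv
      rw [e, Int.mul_ediv_cancel_left _ (by norm_num)]
    rw [hexp, zpow_add₀ q_ne, ← ck_eq n k, qint, tk]
    ring
  have h2 := EQ.sum (s := range (M + 1)) fun k hk =>
    key hn hM (show k ≤ M by have := mem_range.1 hk; omega)
  rw [← mul_sum, sum_add_distrib, sum_add_distrib, ← mul_sum, sum_neg_distrib] at h2
  have h3 : I n 2 (∑ k ∈ range (M + 1), ee n M 0 k + ∑ k ∈ range (M + 1), ee n M (-1) k +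
      w n * (-(∑ k ∈ range (M + 1), tk n (M + 1) k * ((k * (M - k) : ℤ) : K)))) := by
    refine ((ee_sum hn hM ht 0 (Or.inl rfl)).add (ee_sum hn hM ht (-1) (Or.inr rfl))).add ?_
    exact I_w_mul_iff.2 (moment hn hM).neg
  have h4 : I n 2 (2 * ∑ k ∈ range (M + 1),
      (tk n (M + 1) k * q ^ ((n : ℤ) * ((k : ℤ) * (M + 1 - k) / 2)))) := by
    have := h2.2.2.add h3
    simpa using this
  have hU : U n (2 : K) := by
    have := U_rat (n := n) (c := 2) (by norm_num)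
    exact_mod_cast this
  rw [hS]
  exact (I.cancel hU.1 hU.2.2 h4).mulL h1q.2.2

end

/-- **Answer to Q1.** `S_n(q) ≡ 0 (mod Φ_n(q)^2)` for every `n > 1` with `n ≡ 1 (mod 4)`; for
`n = 1` (where `S_1(q) = 1`) the congruence fails. -/
theorem result : (∀ n : ℕ, 1 < n → n % 4 = 1 → Cong (cyclotomic n ℚ ^ 2) (S n) 0) ∧
    ¬ Cong (cyclotomic 1 ℚ ^ 2) (S 1) 0 := by
  constructor
  · intro n hn1 hmod
    have : NeZero n := ⟨by omega⟩
    obtain ⟨t, ht⟩ : ∃ t, n = 4 * t + 1 := ⟨n / 4, by omega⟩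
    rw [Cong, sub_zero]
    exact num_of_I (main (M := 2 * t) (t := t) (by omega) rfl (by omega))
  · intro h
    have hI : I 1 2 (S 1 - 0) := I_of_num two_ne_zero h
    have hS : S 1 = 1 := by
      have h1 : (1 - q : K) ≠ 0 := by simpa using one_sub_pow_ne one_ne_zero
      simp [S, poch, qint, ex]
      exact h1
    rw [hS, sub_zero] at hI
    exact not_I_one (hI.mono one_le_two)

end Pool.Agent.Results.MP_b125a4_nt.SquareDivides
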